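import Mathlib
import Pool.Agent.Lib.MP_de689f_co.Graph

/-!
# No constant works for `C₄`-free graphs
-/

namespace Pool.Agent.Results.MP_de689f_co.C4FreeNoConstant

open Pool.Agent.Lib.MP_de689f_co

/-- There is no constant `c` such that for every `k ≥ 1` and every finite `C₄`-free `k`-colourable
graph `G` any two `(k + c)`-colourings of `G` are Kempe equivalent. -/
theorem result : ¬ ∃ c : ℕ, ∀ k : ℕ, 1 ≤ k → ∀ (V : Type) [Finite V] (G : SimpleGraph V),
    ¬ (SimpleGraph.cycleGraph 4).IsIndContained G → G.Colorable k →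
      ∀ α β : G.Coloring (Fin (k + c)), KempeEquiv G α β := by
  rintro ⟨c, hc⟩
  obtain ⟨m, hm⟩ : ∃ m, m = 4 + c := ⟨_, rfl⟩
  -- a large power of three
  have hbig : 4 * 8 ^ (2 * (m * m)) < 3 ^ (2 * (2 * (m * m)) + 2) := by
    have h1 : (3 : ℕ) ^ (2 * (2 * (m * m)) + 2) = 9 * 9 ^ (2 * (m * m)) := by
      rw [pow_add, pow_mul]; ring
    have h2 : (8 : ℕ) ^ (2 * (m * m)) ≤ 9 ^ (2 * (m * m)) := Nat.pow_le_pow_left (by norm_num) _
    have h3 : 0 < (9 : ℕ) ^ (2 * (m * m)) := by positivity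
    rw [h1]
    omega
  obtain ⟨E, hE⟩ : ∃ E, E = 2 * (2 * (m * m)) + 2 := ⟨_, rfl⟩
  rw [← hE] at hbig
  have hdvd : 3 ∣ 3 ^ E := dvd_pow_self 3 (by omega)
  have hne : NeZero (3 ^ E) := ⟨by positivity⟩
  have hcol3 : (H m (3 ^ E)).Colorable 3 := colorable_three hdvd
  have hC4 : ¬ (SimpleGraph.cycleGraph 4).IsIndContained (H m (3 ^ E)) := by
    rintro ⟨φ⟩
    have hadj : ∀ i j : Fin 4, (SimpleGraph.cycleGraph 4).Adj i j → (H m (3 ^ E)).Adj (φ i) (φ j) :=
      fun i j h => φ.map_adj_iff.mpr h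
    refine no_four_cycle hbig (hadj 0 1 ?_) (hadj 1 2 ?_) (hadj 2 3 ?_) (hadj 3 0 ?_)
      (fun h => ?_) (fun h => ?_)
    · decide
    · decide
    · decide
    · decide
    · exact absurd (φ.injective h) (by decide)
    · exact absurd (φ.injective h) (by decide)
  subst hm
  obtain ⟨γ⟩ := hcol3
  -- the 3-colouring as a colouring with `4 + c` colours
  let β : (H (4 + c) (3 ^ E)).Coloring (Fin (4 + c)) :=
    SimpleGraph.Coloring.mk (fun p => Fin.castLE (by omega) (γ p)) (by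
      intro p q hadj heq
      exact γ.valid hadj (Fin.castLE_injective _ heq))
  have hβ : ¬ Function.Surjective β := by
    intro hsurj
    obtain ⟨p, hp⟩ := hsurj ⟨3, by omega⟩
    have h1 : (β p).val = (γ p).val := rfl
    rw [hp] at h1
    have := (γ p).isLt
    simp only at h1
    omega
  have hα : Function.Surjective (cls (4 + c) (3 ^ E)) := fun i => ⟨(i, 0), rfl⟩
  exact not_equiv_of_frozen (H (4 + c) (3 ^ E)) (fun a b hab => cls_frozen a b hab) hα hβ
    (hc 4 (by norm_num) _ (H (4 + c) (3 ^ E)) hC4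
      (SimpleGraph.Colorable.mono (by norm_num) ⟨γ⟩) (cls (4 + c) (3 ^ E)) β)

end Pool.Agent.Results.MP_de689f_co.C4FreeNoConstant
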